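import Pool.Agent.U890.TM.Base5
import Pool.Agent.U890.TM.Base9

/-!
# The 2-adic valuations of the coefficients of the 5th and the 9th power of the
# Thue-Morse product

Question 2 of the problem, answered in the affirmative: with `v = ν₂(n + 1)`,
`ν₂(t₅(4 n + j)) = 4 ⌈v / 2⌉ - (v mod 2)` for `j < 4`, and
`ν₂(t₉(8 n + j)) = 5 ⌈v / 2⌉ - 2 (v mod 2)` for `j < 8`.

Write `K = 4` or `8` and `m = K + 1`.  The block `B_n = (t_m(K n + j))_{j < K}` satisfies
`B_{2 n + 1} = A B_n` for a fixed integer matrix `A`, so that `B_n = A ^ v B_{2 q}` when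
`n + 1 = 2 ^ v (2 q + 1)`.  The characteristic polynomial of `A` is `x ^ 4 - 80 x ^ 2 + 1024` or
`x ^ 8 - 6560 x ^ 6 + 8472576 x ^ 4 - 2235564032 x ^ 2 + 2 ^ 36`, which propagates the
valuations in steps of two; and for `v < 4` (or `v < 8`) each entry of `A ^ v B_{2 q}` is
`2 ^ e` times a number congruent to `t_m(q) + t_m(q - K)` modulo `2`, which is odd.
-/

set_option autoImplicit false

namespace Pool.Agent.Results.MP_1a5b88_nt.ExplicitCases

open Finset Polynomial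

/-- `t m n` is the coefficient of `x^n` in `∏_{i ≥ 0} (1 - x^(2^i))^m`.  The factors with `i > n`
do not contribute to this coefficient (as `2^i > n`), so the product may be cut at `i ≤ n`. -/
noncomputable def t (m n : ℕ) : ℤ := (∏ i ∈ range (n + 1), (1 - (X : ℤ[X]) ^ (2 ^ i)) ^ m).coeff n

theorem t_def (m n : ℕ) : t m n = Pool.Agent.U890.TM.T m (n : ℤ) :=
  (Pool.Agent.U890.TM.T_nat m n).symm

theorem emult {x : ℤ} {e : ℕ} (h : ∃ a : ℤ, x = 2 ^ e * (2 * a + 1)) :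
    emultiplicity (2 : ℤ) x = (e : ℕ∞) := by
  obtain ⟨a, rfl⟩ := h
  rw [emultiplicity_eq_coe]
  refine ⟨dvd_mul_right _ _, ?_⟩
  rw [pow_succ]
  intro h
  have h2 : (2 : ℤ) ∣ 2 * a + 1 :=
    (mul_dvd_mul_iff_left (pow_ne_zero e (by norm_num : (2 : ℤ) ≠ 0))).mp h
  omega

theorem split (n : ℕ) : ∃ q : ℕ, n + 1 = 2 ^ padicValNat 2 (n + 1) * (2 * q + 1) := by
  obtain ⟨m, hm⟩ := pow_padicValNat_dvd (p := 2) (n := n + 1)
  have hodd : ¬ 2 ∣ m := by
    intro h
    obtain ⟨k, rfl⟩ := h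
    have h2 : 2 ^ (padicValNat 2 (n + 1) + 1) ∣ n + 1 := ⟨k, by rw [pow_succ]; linarith⟩
    exact pow_succ_padicValNat_not_dvd (by omega) h2
  exact ⟨m / 2, by rw [show 2 * (m / 2) + 1 = m by omega]; exact hm⟩

/-- Question 2: both explicit cases hold. -/
theorem result :
    (∀ n j : ℕ, j < 4 → emultiplicity (2 : ℤ) (t 5 (4 * n + j)) =
      ((4 * ((padicValNat 2 (n + 1) + 1) / 2) - padicValNat 2 (n + 1) % 2 : ℕ) : ℕ∞)) ∧
    (∀ n j : ℕ, j < 8 → emultiplicity (2 : ℤ) (t 9 (8 * n + j)) =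
      ((5 * ((padicValNat 2 (n + 1) + 1) / 2) - 2 * (padicValNat 2 (n + 1) % 2) : ℕ) : ℕ∞)) := by
  constructor
  · intro n j hj
    obtain ⟨q, hq⟩ := split n
    have hn : (n : ℤ) = 2 ^ padicValNat 2 (n + 1) * (2 * (q : ℤ) + 1) - 1 := by
      have : ((n + 1 : ℕ) : ℤ) = ((2 ^ padicValNat 2 (n + 1) * (2 * q + 1) : ℕ) : ℤ) := by
        exact_mod_cast hq
      push_cast at this
      linarith
    rw [t_def]
    refine emult ?_
    have e : Pool.Agent.U890.TM.T 5 ((4 * n + j : ℕ) : ℤ) =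
        Pool.Agent.U890.TM.S5 (padicValNat 2 (n + 1)) (q : ℤ) (j : ℤ) := by
      unfold Pool.Agent.U890.TM.S5
      rw [← hn]
      push_cast
      rfl
    rw [e]
    interval_cases j
    · exact Pool.Agent.U890.TM.main5_0 q _
    · exact Pool.Agent.U890.TM.main5_1 q _
    · exact Pool.Agent.U890.TM.main5_2 q _
    · exact Pool.Agent.U890.TM.main5_3 q _
  · intro n j hj
    obtain ⟨q, hq⟩ := split n
    have hn : (n : ℤ) = 2 ^ padicValNat 2 (n + 1) * (2 * (q : ℤ) + 1) - 1 := by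
      have : ((n + 1 : ℕ) : ℤ) = ((2 ^ padicValNat 2 (n + 1) * (2 * q + 1) : ℕ) : ℤ) := by
        exact_mod_cast hq
      push_cast at this
      linarith
    rw [t_def]
    refine emult ?_
    have e : Pool.Agent.U890.TM.T 9 ((8 * n + j : ℕ) : ℤ) =
        Pool.Agent.U890.TM.S9 (padicValNat 2 (n + 1)) (q : ℤ) (j : ℤ) := by
      unfold Pool.Agent.U890.TM.S9
      rw [← hn]
      push_cast
      rfl
    rw [e]
    interval_cases j
    · exact Pool.Agent.U890.TM.main9_0 q _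
    · exact Pool.Agent.U890.TM.main9_1 q _
    · exact Pool.Agent.U890.TM.main9_2 q _
    · exact Pool.Agent.U890.TM.main9_3 q _
    · exact Pool.Agent.U890.TM.main9_4 q _
    · exact Pool.Agent.U890.TM.main9_5 q _
    · exact Pool.Agent.U890.TM.main9_6 q _
    · exact Pool.Agent.U890.TM.main9_7 q _

end Pool.Agent.Results.MP_1a5b88_nt.ExplicitCases
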